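import Pool.Agent.H17.CI.TargetsB
import Pool.Agent.H17.CI.TargetsC

/-! Row TPT. -/

set_option autoImplicit false

namespace Pool.Agent.H66.CI

open MvPolynomial SC Pool.Agent.H27.LV Pool.Agent.H17.VG Pool.Agent.H17.CI

lemma eval_lin {K : Type} [Field K] {n : ℕ} (ξ x : Fin (n + 1) → K) :
    eval x (lin ξ) = ∑ i, ξ i * x i := by
  simp [lin]

/-- one component -/
lemma single_eq {K : Type} [Field K] {n : ℕ} {ι : Type} [DecidableEq ι] {e : ι → ℕ} (i : ι)
    (ξ : Fin (n + 1) → K) {Q : MvPolynomial (Fin (n + 1)) K} (hQ : Q.IsHomogeneous (e i)) :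
    ∃ q : (Σ i, Mon (n + 1) (e i)) → K,
      (Pi.single i (lin ξ * Q) : Tup ι K n) = fun j => lin ξ * frmT q j := by
  refine ⟨fun p => if p.1 = i then coeff (fs p.2.1) Q else 0, ?_⟩
  funext j
  by_cases h : j = i
  · subst h
    rw [Pi.single_eq_same]
    congr 1
    unfold frmT
    simp only [if_true]
    exact (frm_coeff hQ).symm
  · rw [Pi.single_eq_of_ne h]
    unfold frmT
    simp only [if_neg h]
    simp [frm]

theorem pf_TPT (hSY : T_SY) (hEVT : T_EVT) (hSUT : T_SUT) (hIP : T_IP) : T_TPT := by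
  intro R K _ _ _ _ n ι _ e F D Z x hS hP
  set W : Submodule K (Tup ι K n) := Submodule.span K {G | ∃ (ξ : Fin (n + 1) → K)
    (q : (Σ i, Mon (n + 1) (e i)) → K), ∑ i, ξ i * x i = 0 ∧ G = fun i => lin ξ * frmT q i}
    with hW
  apply le_antisymm
  · refine (hEVT R K n ι e F D Z x hS hP).2.2.2.2 W ?_
    intro G hG i _
    rw [hW] at hG
    induction hG using Submodule.span_induction with
    | mem G h =>
      obtain ⟨ξ, q, h1, rfl⟩ := h
      rw [map_mul, eval_lin, h1, zero_mul]
    | zero => simp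
    | add G G' _ _ h h' => rw [Pi.add_apply, map_add, h, h', add_zero]
    | smul a G _ h => rw [Pi.smul_apply, smul_eval, h, mul_zero]
  · intro w hw
    obtain ⟨τ, l, G, c, h1, h2, h3⟩ := hSUT R K n ι e F D Z x hS hP w hw
    have hx : x ≠ 0 := by
      rintro rfl
      have := hP.one
      simp at this
    have hG : ∀ i, (G i).IsHomogeneous (e i + 1) :=
      (hSY R K n ι e F τ τ l l G G 0 0 hS.homog h1 h1).2
    classical
    have h4 : ∀ i, (Pi.single i (G i) : Tup ι K n) ∈ W := by
      intro i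
      have h5 := hIP K n (e i) x hx (G i) (hG i) (h2 i)
      have h6 : (G i) ∈ W.comap (LinearMap.single K (fun _ : ι => MvPolynomial (Fin (n + 1)) K) i) := by
        refine Submodule.span_le.2 ?_ h5
        rintro G' ⟨ξ, Q, h7, h8, rfl⟩
        obtain ⟨q, hq⟩ := single_eq (ι := ι) (e := e) i ξ h8
        change (Pi.single i (lin ξ * Q) : Tup ι K n) ∈ W
        rw [hq]
        exact Submodule.subset_span ⟨ξ, q, h7, rfl⟩
      exact h6
    have h5 : G ∈ W := by
      have h6 : G = ∑ i, (Pi.single i (G i) : Tup ι K n) := (Finset.univ_sum_single G).symm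
      rw [h6]
      exact Submodule.sum_mem _ fun i _ => h4 i
    have h6 : opV τ x ∈ UtT R F x W := Submodule.subset_span (Or.inl ⟨τ, l, G, h5, h1, rfl⟩)
    have h7 : x ∈ UtT R F x W := Submodule.subset_span (Or.inr rfl)
    have h8 : w = opV τ x - c • x := by rw [h3]; simp
    rw [h8]
    exact Submodule.sub_mem _ h6 (Submodule.smul_mem _ _ h7)

end Pool.Agent.H66.CI
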