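import Pool.Agent.H66.CI.RLT

/-! Row BT. -/

set_option autoImplicit false

namespace Pool.Agent.H66.CI

open MvPolynomial SC Pool.Agent.H27.LV Pool.Agent.H17.VG Pool.Agent.H17.CI
open Pool.Agent.H66.VG (resL resL_apply dirL dirL_apply res_zero)

/-- vectors at infinity -/
def consL (K : Type) [Field K] (n : ℕ) : (Fin n → K) →ₗ[K] (Fin (n + 1) → K) where
  toFun v := Fin.cons 0 v
  map_add' v v' := by
    funext i
    refine Fin.cases ?_ (fun j => ?_) i
    · simp
    · simp
  map_smul' a v := by
    funext i
    refine Fin.cases ?_ (fun j => ?_) i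
    · simp
    · simp

theorem pf_BT (hRS : T_RS) (hJYT : T_JYT) (hRLT : T_RLT) (hDGT : T_DGT) (hPST : T_PST) : T_BT := by
  intro R K _ _ _ _ n ι _ e F D Z x y hS hP hy0 hy hE m hm h2m
  obtain ⟨-, hfd, hle⟩ := hPST R K n ι e F D Z x y hS hP hy0 hy m hm
  haveI := hfd
  let f : (Fin (n + 1) → K) →ₗ[K] (ι → Polynomial K) :=
    { toFun := fun w i => res x y (dir w (F i))
      map_add' := by
        intro w w'
        funext i
        have h1 := (hRS K n 0 (F i) (F i) w w' 0 x y 1 1).2.2.2.2.2.2.1
        rw [one_smul, one_smul, C_1, one_mul, one_mul] at h1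
        rw [h1]
        exact map_add (resL x y) _ _
      map_smul' := by
        intro a w
        funext i
        have h1 := (hRS K n 0 (F i) (F i) w 0 0 x y a 0).2.2.2.2.2.2.1
        rw [zero_smul, add_zero, C_0, zero_mul, add_zero, ← MvPolynomial.smul_eq_C_mul] at h1
        rw [h1]
        exact map_smul (resL x y) _ _ }
  let g : (Fin n → K) →ₗ[K] YlT R e F x y (UtT R F x (IlT e x y)) :=
    (f ∘ₗ consL K n).codRestrict _
      (fun v => hJYT R K n ι e F D Z x y (consL K n v) hS hP hy0 hy rfl)
  have hg : Function.Injective g := by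
    rw [injective_iff_map_eq_zero]
    intro v hv
    have h1 : ∀ i, res x y (dir (consL K n v) (F i)) = 0 := by
      intro i
      have h4 : f (consL K n v) = 0 := congrArg Subtype.val hv
      exact congrFun h4 i
    have h0 : (consL K n v) 0 = 0 := rfl
    have h2 := hRLT R K n ι e F D Z x y (consL K n v) hS hP hy0 hy h0 m hm h2m h1
    have h3 := hDGT K n ι e F Z x y (consL K n v) hS.homog hP.one hP.on hy0 hy hE h0 h2 h1
    funext j
    exact congrFun h3 j.succ
  have h3 := LinearMap.finrank_le_finrank_of_injective hg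
  rw [Module.finrank_fin_fun] at h3
  omega

end Pool.Agent.H66.CI
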