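import Pool.Agent.H17.CI.TargetsB
import Pool.Agent.H66.VG.Base

/-! Row RLT. -/

set_option autoImplicit false

namespace Pool.Agent.H66.CI

open MvPolynomial SC Pool.Agent.H27.LV Pool.Agent.H17.VG Pool.Agent.H17.CI
open Pool.Agent.H66.VG (resL resL_apply dirL dirL_apply res_zero)

lemma pD_zero {R K : Type} [Field R] [Field K] [Algebra R K] (θ : Derivation R K K) :
    pD θ 0 = 0 := by
  simp [pD]

/-- the line is a line -/
lemma indep_of {K : Type} [Field K] {n : ℕ} {x y : Fin (n + 1) → K} (hx : x 0 = 1) (hy : y 0 = 0)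
    (h : y ≠ 0) : Indep x y := by
  unfold Indep
  rw [LinearIndependent.pair_iff]
  intro s t hst
  have h0 := congrFun hst 0
  simp only [Pi.add_apply, Pi.smul_apply, smul_eq_mul, hx, hy, mul_one, mul_zero, add_zero,
    Pi.zero_apply] at h0
  refine ⟨h0, ?_⟩
  rw [h0, zero_smul, zero_add] at hst
  exact (smul_eq_zero.1 hst).resolve_right h

theorem pf_RLT (hRS : T_RS) (hRE : T_RE) (hDC : T_DC) (hLF : T_LF) (hETT : T_ETT) (hPST : T_PST)
    (hIQT : T_IQT) (hJYT : T_JYT) : T_RLT := by
  intro R K _ _ _ _ n ι _ e F D Z x y w hS hP hy0 hy hw0 m hm h2m hw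
  have hxy : Indep x y := indep_of hP.one hy0 hy
  by_contra hcon
  obtain ⟨ξ, h1, h2, h3⟩ := (hLF K n x y hxy).2.2 w hcon
  obtain ⟨-, hfd, hle⟩ := hPST R K n ι e F D Z x y hS hP hy0 hy m hm
  have hG : ∀ i, (dir w (F i)).IsHomogeneous (e i) := by
    intro i
    obtain ⟨-, -, -, -, -, -, -, -, -, -, -, -, h4, -⟩ := hRS K n (e i) (F i) 0 w 0 0 x y 0 0
    exact h4 (hS.homog i)
  have hGr : ∀ i, res x y (dir x (dir w (F i))) = 0 ∧ res x y (dir y (dir w (F i))) = 0 := by
    intro i
    obtain ⟨-, -, -, -, -, -, -, -, -, -, -, -, -, h4⟩ :=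
      hRS K n (e i) (dir w (F i)) 0 w 0 0 x y 0 0
    exact h4 (hG i) (hw i)
  have hdir : ∀ (a b : K) (v v' : Fin (n + 1) → K) (G : MvPolynomial (Fin (n + 1)) K),
      res x y (dir (a • v + b • v') G) =
        Polynomial.C a * res x y (dir v G) + Polynomial.C b * res x y (dir v' G) := by
    intro a b v v' G
    obtain ⟨-, -, -, -, -, -, h4, -⟩ := hRS K n 0 G 0 v v' 0 x y a b
    obtain ⟨h5, -⟩ := hRS K n 0 (C a * dir v G) (C b * dir v' G) 0 0 0 x y a b
    obtain ⟨-, h6, h7, -⟩ := hRS K n 0 (C a) (dir v G) 0 0 0 x y a b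
    obtain ⟨-, h8, h9, -⟩ := hRS K n 0 (C b) (dir v' G) 0 0 0 x y b b
    rw [h4, h5, h6, h7, h8, h9]
  have h := hIQT R K n ι e F D Z x y ξ hS hP hy0 hy h1 h2
    (YlT R e F x y (UtT R F x (IlT e x y))) hfd
    (by
      intro Q hQ τ l a hτ hτx
      have hyy := hETT R K n ι e F D Z x y ξ hS hP hy0 hy m hm h2m h1 h2 Q τ l a hQ hτ hτx
      obtain ⟨b, c, hbc⟩ := Submodule.mem_span_pair.1 hyy
      have hmain : ∀ i, res x y (Q i) = - res x y (dir (opV τ w) (F i)) := by
        intro i
        have e1 := hRE R K n τ (dir w (F i)) x y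
        rw [hw i, pD_zero] at e1
        have e2 : res x y (dir (opV τ x) (dir w (F i))) = 0 := by
          have := hdir a 0 x x (dir w (F i))
          rw [zero_smul, add_zero, (hGr i).1, mul_zero, mul_zero, add_zero] at this
          rw [hτx, this]
        have e3 : res x y (dir (opV τ y) (dir w (F i))) = 0 := by
          have := hdir b c x y (dir w (F i))
          rw [(hGr i).1, (hGr i).2, mul_zero, mul_zero, add_zero] at this
          rw [← hbc, this]
        rw [e2, e3, mul_zero, add_zero, add_zero, hDC] at e1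
        have e4 : opF τ (F i) = lin ξ * Q i - (l i) • F i := by
          have h9 : opF τ (F i) + C (l i) * F i = lin ξ * Q i := hτ.2 i
          rw [MvPolynomial.smul_eq_C_mul, ← h9]
          ring
        have e5 : dir w (opF τ (F i)) = dir w (lin ξ * Q i) - (l i) • dir w (F i) := by
          rw [e4, ← dirL_apply, map_sub, map_smul, dirL_apply, dirL_apply]
        have e6 : res x y (dir w (opF τ (F i))) = res x y (dir w (lin ξ * Q i)) := by
          rw [e5, ← resL_apply, map_sub, map_smul, resL_apply, resL_apply, hw i, smul_zero,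
            sub_zero]
        obtain ⟨e7, -⟩ := hRS K n 0 (dir w (opF τ (F i))) (dir (opV τ w) (F i)) 0 0 0 x y 0 0
        have e8 : res x y (dir w (lin ξ * Q i)) = res x y (Q i) := by
          obtain ⟨-, -, -, -, f5, f6, -⟩ := hRS K n 0 (lin ξ) (Q i) w 0 ξ x y 0 0
          obtain ⟨a1, -, -, -, -⟩ :=
            hRS K n 0 (dir w (lin ξ) * Q i) (lin ξ * dir w (Q i)) w 0 ξ x y 0 0
          obtain ⟨-, b2, b3, -, -⟩ :=
            hRS K n 0 (dir w (lin ξ)) (Q i) w 0 ξ x y (∑ i, ξ i * w i) 0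
          obtain ⟨-, c2, -, c4, -⟩ := hRS K n 0 (lin ξ) (dir w (Q i)) w 0 ξ x y 0 0
          rw [f5, a1, b2, c2, c4, h1, h2, f6, b3, h3]
          simp
        rw [e7, e6, e8] at e1
        rw [eq_neg_iff_add_eq_zero]
        exact e1.symm
      have hv0 : (opV τ w) 0 = 0 := by
        have hA := hτ.1
        simp only [opV, hw0, map_zero, hA _, zero_mul, Finset.sum_const_zero, sub_zero]
      have hfun : (fun i => res x y (Q i)) = - (fun i => res x y (dir (opV τ w) (F i))) := by
        funext i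
        exact hmain i
      rw [hfun]
      exact Submodule.neg_mem _ (hJYT R K n ι e F D Z x y (opV τ w) hS hP hy0 hy hv0))
  omega

end Pool.Agent.H66.CI
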